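import Pool.Agent.Q184.TP.Tang

set_option autoImplicit false
set_option linter.unusedSectionVars false

/-!
# Plane trees of twisted bands
-/

namespace Pool.Agent.Q184.TP

open Pool.Agent.Y479.LS

/-- Plane forests whose vertices have a sign (`true` is `+`) and a natural number: `cons s n sub rest`
is the tree whose root has the label `(s, n)` and whose root has the children `sub`, followed by the
forest `rest`. -/
inductive Forest where
  | nil : Forest
  | cons (s : Bool) (n : ℕ) (sub rest : Forest) : Forest

/-- the sign as an integer -/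
def sg (s : Bool) : ℤ := if s then 1 else -1

/-- The sum of the tangle `T` and of a twist region with `n` full twists of sign `s`. -/
def vert (s : Bool) (n : ℕ) (T : Tangle) : Tangle := T.add (Tangle.twist (sg s * n))

namespace Forest

/-- The sum of the inverses of the tangles of the trees of the forest, where the tangle of a tree with
the root `(s, n)` and the forest `F` of the children is `tangle F + twist (± n)`. -/
def tangle : Forest → Tangle
  | nil => Tangle.twist 0
  | cons s n sub rest => (vert s n sub.tangle).inv.add rest.tangle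

/-- the number of the roots of the forest whose sign is not `s` -/
def opp (s : Bool) : Forest → ℕ
  | nil => 0
  | cons t _ _ rest => (if t = s then 0 else 1) + rest.opp s

/-- A forest that is attached to a vertex of sign `s` is admissible if every vertex `(t, n)` of it has
at most `n` neighbours (the parent included) of the other sign, and `n` is positive or the vertex has
children. -/
def Adm (s : Bool) : Forest → Prop
  | nil => True
  | cons t n sub rest => sub.opp t + (if t = s then 0 else 1) ≤ n ∧ (1 ≤ n ∨ sub ≠ nil) ∧
      sub.Adm t ∧ rest.Adm s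

end Forest

/-- The tree with the root `(s, n)` and the forest `F` of the children is admissible: every vertex
`(t, m)` has at most `m` neighbours of the other sign, and `m` is positive or the vertex has children. -/
def Adm (s : Bool) (n : ℕ) (F : Forest) : Prop :=
  F.opp s ≤ n ∧ (1 ≤ n ∨ F ≠ Forest.nil) ∧ F.Adm s

theorem sg_cases (s : Bool) : sg s = 1 ∨ sg s = -1 := by
  cases s
  · exact Or.inr rfl
  · exact Or.inl rfl

theorem sg_ne {s t : Bool} (h : ¬ t = s) : sg s = - sg t := by
  cases s <;> cases t <;> simp_all [sg]

section vert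

variable {T : Tangle} {s : Bool} {n : ℕ}

theorem vert_std (h : T.Std) : (vert s n T).Std := Tangle.add_std h (Tangle.twist_std _)
theorem vert_rig (h : T.Rig) : (vert s n T).Rig := Tangle.add_rig h (Tangle.twist_rig _)

theorem vert_pos {m : ℕ} (hs : T.Std) (hm : m ≤ n) (h : T.Pos (sg s) m) :
    (vert s n T).Pos (sg s) 0 := by
  have h1 := Tangle.add_pos hs h (Tangle.twist_nn (sg s) n (-m) (by omega))
  rwa [add_neg_cancel] at h1

theorem vert_pos' (hs : T.Std) (hn : 1 ≤ n) (h : T.NN (sg s) 0) :
    (vert s n T).Pos (sg s) 0 := by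
  have h1 := Tangle.add_pos' hs h (Tangle.twist_pos (sg s) n 0 (by omega))
  rwa [add_zero] at h1

theorem vert_nn {m : ℕ} (hs : T.Std) (hm : m + 1 ≤ n) (h : T.NN (sg s) m) :
    (vert s n T).NN (sg s) (-1) := by
  have h1 := Tangle.add_nn hs h (Tangle.twist_nn (sg s) n (-m - 1) (by omega))
  have e : (m : ℤ) + (-m - 1) = -1 := by ring
  rwa [e] at h1

end vert

theorem forest_main (F : Forest) : ∀ s : Bool, F.Adm s →
    F.tangle.Std ∧ F.tangle.Rig ∧ F.tangle.NN (sg s) (F.opp s) ∧
      (F ≠ Forest.nil → F.tangle.Pos (sg s) (F.opp s)) := by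
  induction F with
  | nil =>
    intro s _
    refine ⟨Tangle.twist_std 0, Tangle.twist_rig 0, ?_, fun h => absurd rfl h⟩
    have := Tangle.twist_nn (sg s) 0 0 (by norm_num)
    rw [mul_zero] at this
    exact this
  | cons t n sub rest ih1 ih2 =>
    intro s h
    obtain ⟨h1, h2, h3, h4⟩ := h
    obtain ⟨a1, a2, a3, a4⟩ := ih1 t h3
    obtain ⟨b1, b2, b3, -⟩ := ih2 s h4
    have hpos : (vert t n sub.tangle).Pos (sg t) 0 := by
      by_cases hsub : sub = Forest.nil
      · refine vert_pos' a1 (by tauto) ?_
        have : sub.opp t = 0 := by rw [hsub]; rfl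
        rw [this] at a3
        exact a3
      · exact vert_pos a1 (by omega) (a4 hsub)
    have i1 : (vert t n sub.tangle).inv.Std := Tangle.inv_std (vert_std a1)
    have i2 : (vert t n sub.tangle).inv.Rig :=
      Tangle.inv_rig (vert_std a1) (vert_rig a2) (sg_cases t) hpos
    have i3 : (vert t n sub.tangle).inv.Pos (sg s) ((if t = s then 0 else 1 : ℕ) : ℤ) := by
      by_cases hts : t = s
      · rw [if_pos hts, ← hts]
        exact Tangle.inv_pos (vert_std a1) (sg_cases t) hpos
      · rw [if_neg hts] at h1 ⊢
        rw [sg_ne hts]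
        exact Tangle.inv_absorb (vert_std a1) (sg_cases t) (vert_nn a1 h1 a3)
    have i4 : (Forest.cons t n sub rest).tangle.Pos (sg s)
        ((Forest.cons t n sub rest).opp s) := by
      have := Tangle.add_pos i1 i3 b3
      rw [← Nat.cast_add] at this
      exact this
    exact ⟨Tangle.add_std i1 b1, Tangle.add_rig i2 b2, i4.nn, fun _ => i4⟩

theorem tree_main {s : Bool} {n : ℕ} {F : Forest} (h : Adm s n F) :
    (vert s n F.tangle).Std ∧ (vert s n F.tangle).Rig ∧ (vert s n F.tangle).Pos (sg s) 0 := by
  obtain ⟨h1, h2, h3⟩ := h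
  obtain ⟨a1, a2, a3, a4⟩ := forest_main F s h3
  refine ⟨vert_std a1, vert_rig a2, ?_⟩
  by_cases hF : F = Forest.nil
  · refine vert_pos' a1 (by tauto) ?_
    have : F.opp s = 0 := by rw [hF]; rfl
    rw [this] at a3
    exact a3
  · exact vert_pos a1 h1 (a4 hF)

end Pool.Agent.Q184.TP
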