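import Pool.Agent.Q184.TP.Sem

set_option autoImplicit false
set_option linter.unusedSectionVars false

/-!
# Operations on comparisons: composition, twists, rotation, absorption
-/

namespace Pool.Agent.Q184.TP

open Pool.Agent.Y479.LS

/-- conjugation by the powers of `κ` -/
def sh {G : Type*} [Group G] (κ : ZMod 3 → G) (z : ℤ) (b : ZMod 3 → G) : ZMod 3 → G :=
  fun i => κ i ^ z * b i * κ (i + 1) ^ (-z)

theorem sh_sh {G : Type*} [Group G] (κ : ZMod 3 → G) (y z : ℤ) (b : ZMod 3 → G) :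
    sh κ y (sh κ z b) = sh κ (y + z) b := by
  funext i
  show κ i ^ y * (κ i ^ z * b i * κ (i + 1) ^ (-z)) * κ (i + 1) ^ (-y) =
    κ i ^ (y + z) * b i * κ (i + 1) ^ (-(y + z))
  rw [neg_add, add_comm (-y) (-z), zpow_add, zpow_add]
  group

theorem sh_zero {G : Type*} [Group G] (κ : ZMod 3 → G) (b : ZMod 3 → G) : sh κ 0 b = b := by
  funext i
  show κ i ^ (0 : ℤ) * b i * κ (i + 1) ^ (-(0 : ℤ)) = b i
  simp

theorem sh_inv {G : Type*} [Group G] (κ : ZMod 3 → G) (z : ℤ) (b : ZMod 3 → G) :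
    sh (fun i => (κ i)⁻¹) z b = sh κ (-z) b := by
  funext i
  show (κ i)⁻¹ ^ z * b i * (κ (i + 1))⁻¹ ^ (-z) = κ i ^ (-z) * b i * κ (i + 1) ^ (-(-z))
  rw [inv_zpow', inv_zpow', neg_neg]

theorem sh_cyc {G : Type*} [Group G] {κ b : ZMod 3 → G} (z : ℤ) (h : Cyc b) : Cyc (sh κ z b) := by
  intro i
  show κ i ^ z * b i * κ (i + 1) ^ (-z) * (κ (i + 1) ^ z * b (i + 1) * κ (i + 1 + 1) ^ (-z)) *
    (κ (i + 2) ^ z * b (i + 2) * κ (i + 2 + 1) ^ (-z)) = 1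
  rw [i11, i21]
  have h1 := h i
  have : κ i ^ z * b i * κ (i + 1) ^ (-z) * (κ (i + 1) ^ z * b (i + 1) * κ (i + 2) ^ (-z)) *
      (κ (i + 2) ^ z * b (i + 2) * κ i ^ (-z)) =
      κ i ^ z * (b i * b (i + 1) * b (i + 2)) * κ i ^ (-z) := by group
  rw [this, h1, mul_one, ← zpow_add, add_neg_cancel, zpow_zero]

section sem

variable {X : Type*} [LinearOrder X] {κ a b c : ZMod 3 → Aut X}

theorem pow_le_iff (f : Aut X) {r : X} (h : f r ≤ r) (n : ℕ) : (f ^ n) r ≤ r := by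
  induction n with
  | zero => exact le_rfl
  | succ n ih =>
    rw [pow_succ, Aut.mul_apply]
    exact ((Aut.le_iff _).mpr h).trans ih

theorem le_pow_iff (f : Aut X) {r : X} (h : r ≤ f r) (n : ℕ) : r ≤ (f ^ n) r := by
  induction n with
  | zero => exact le_rfl
  | succ n ih =>
    rw [pow_succ, Aut.mul_apply]
    exact ih.trans ((Aut.le_iff _).mpr h)

/-! ### Composition -/

theorem W.trans (h : W κ a b) (h' : W κ b c) : W κ a c := by
  constructor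
  · intro i p r h1 h2 h3 h4
    rcases lt_or_ge (b i p) r with g | g
    · exact absurd (h'.1 i p r h1 h2 g.le h4).1 g.ne
    · have e1 := h.1 i p r h1 h2 h3 g
      have e2 := h'.1 i p r h1 h2 e1.2.le h4
      exact ⟨e1.1, e2.2⟩
  · intro i p r h1 h2 h3 h4
    rcases lt_or_ge r (b i p) with g | g
    · exact absurd (h'.2 i p r h1 h2 g.le h4).1 g.ne'
    · have e1 := h.2 i p r h1 h2 h3 g
      have e2 := h'.2 i p r h1 h2 e1.2.ge h4
      exact ⟨e1.1, e2.2⟩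

theorem P.trans_weak (h : P κ a b) (h' : W κ b c) : P κ a c := by
  constructor
  · intro i p r h1 h2 h3 h4
    rcases lt_or_ge (b i p) r with g | g
    · exact absurd (h'.1 i p r h1 h2 g.le h4).1 g.ne
    · have e1 := h.1 i p r h1 h2 h3 g
      have e2 := h'.1 i p r h1 h2 e1.2.1.le h4
      exact ⟨e1.1, e2.2, e1.2.2⟩
  · intro i p r h1 h2 h3 h4
    rcases lt_or_ge r (b i p) with g | g
    · exact absurd (h'.2 i p r h1 h2 g.le h4).1 g.ne'
    · have e1 := h.2 i p r h1 h2 h3 g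
      have e2 := h'.2 i p r h1 h2 e1.2.1.ge h4
      exact ⟨e1.1, e2.2, e1.2.2⟩

theorem W.trans_pos (h : W κ a b) (h' : P κ b c) : P κ a c := by
  constructor
  · intro i p r h1 h2 h3 h4
    rcases lt_or_ge (b i p) r with g | g
    · exact absurd (h'.1 i p r h1 h2 g.le h4).1 g.ne
    · have e1 := h.1 i p r h1 h2 h3 g
      have e2 := h'.1 i p r h1 h2 e1.2.le h4
      exact ⟨e1.1, e2.2⟩
  · intro i p r h1 h2 h3 h4
    rcases lt_or_ge r (b i p) with g | g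
    · exact absurd (h'.2 i p r h1 h2 g.le h4).1 g.ne'
    · have e1 := h.2 i p r h1 h2 h3 g
      have e2 := h'.2 i p r h1 h2 e1.2.ge h4
      exact ⟨e1.1, e2.2⟩

theorem W.refl (κ a : ZMod 3 → Aut X) : W κ a a :=
  ⟨fun _ _ _ _ _ h3 h4 => ⟨le_antisymm h3 h4, le_antisymm h3 h4⟩,
    fun _ _ _ _ _ h3 h4 => ⟨le_antisymm h4 h3, le_antisymm h4 h3⟩⟩

/-! ### Reversal -/

theorem P.inv (h : P κ a b) : P (fun i => (κ i)⁻¹) b a := by
  constructor
  · intro i p r h1 h2 h3 h4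
    have h1' : r ≤ κ i r := (inv_le_iff _ _ _).mp h1
    have h2' : κ (i + 1) p ≤ p := (le_inv_iff _ _ _).mp h2
    have e := h.2 i p r h1' h2' h4 h3
    refine ⟨e.2.1, e.1, ?_, ?_⟩
    · show (κ i)⁻¹ r = r
      rw [← Aut.inj (κ i), Aut.self_inv, e.2.2.1]
    · show (κ (i + 1))⁻¹ p = p
      rw [← Aut.inj (κ (i + 1)), Aut.self_inv, e.2.2.2]
  · intro i p r h1 h2 h3 h4
    have h1' : κ i r ≤ r := (le_inv_iff _ _ _).mp h1
    have h2' : p ≤ κ (i + 1) p := (inv_le_iff _ _ _).mp h2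
    have e := h.1 i p r h1' h2' h4 h3
    refine ⟨e.2.1, e.1, ?_, ?_⟩
    · show (κ i)⁻¹ r = r
      rw [← Aut.inj (κ i), Aut.self_inv, e.2.2.1]
    · show (κ (i + 1))⁻¹ p = p
      rw [← Aut.inj (κ (i + 1)), Aut.self_inv, e.2.2.2]

theorem W.inv (h : W κ a b) : W (fun i => (κ i)⁻¹) b a := by
  constructor
  · intro i p r h1 h2 h3 h4
    have h1' : r ≤ κ i r := (inv_le_iff _ _ _).mp h1
    have h2' : κ (i + 1) p ≤ p := (le_inv_iff _ _ _).mp h2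
    have e := h.2 i p r h1' h2' h4 h3
    exact ⟨e.2, e.1⟩
  · intro i p r h1 h2 h3 h4
    have h1' : κ i r ≤ r := (le_inv_iff _ _ _).mp h1
    have h2' : p ≤ κ (i + 1) p := (inv_le_iff _ _ _).mp h2
    have e := h.1 i p r h1' h2' h4 h3
    exact ⟨e.2, e.1⟩

/-! ### The powers of `κ` commute with the conditions -/

theorem zpow_le (f : Aut X) (z : ℤ) (r : X) : f ((f ^ z) r) ≤ (f ^ z) r ↔ f r ≤ r := by
  rw [← Aut.mul_apply, ← zpow_one_add, add_comm, zpow_add_one, Aut.mul_apply, Aut.le_iff]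

theorem le_zpow (f : Aut X) (z : ℤ) (r : X) : (f ^ z) r ≤ f ((f ^ z) r) ↔ r ≤ f r := by
  rw [← Aut.mul_apply, ← zpow_one_add, add_comm, zpow_add_one, Aut.mul_apply, Aut.le_iff]

theorem zpow_eq (f : Aut X) (z : ℤ) (r : X) : f ((f ^ z) r) = (f ^ z) r ↔ f r = r := by
  rw [← Aut.mul_apply, ← zpow_one_add, add_comm, zpow_add_one, Aut.mul_apply, Aut.inj]

/-- multiplication on the left and on the right by powers of `κ` -/
def lr (κ : ZMod 3 → Aut X) (y z : ℤ) (b : ZMod 3 → Aut X) : ZMod 3 → Aut X :=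
  fun i => κ i ^ y * b i * κ (i + 1) ^ z

theorem P1.lr (h : P1 κ a b) (y z : ℤ) : P1 κ (lr κ y z a) (lr κ y z b) := by
  intro i p r h1 h2 h3 h4
  have k : ∀ d : ZMod 3 → Aut X, TP.lr κ y z d i p = (κ i ^ y) (d i ((κ (i + 1) ^ z) p)) :=
    fun d => rfl
  rw [k] at h3 h4 ⊢
  rw [k]
  set p' := (κ (i + 1) ^ z) p with hp'
  set r' := (κ i ^ (-y)) r with hr'
  have hr : r = (κ i ^ y) r' := by
    rw [hr', ← Aut.mul_apply, ← zpow_add, add_neg_cancel, zpow_zero, Aut.one_apply]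
  rw [hr] at h3 h4
  rw [Aut.le_iff] at h3 h4
  have e := h i p' r' ((zpow_le _ _ _).mpr h1) ((le_zpow _ _ _).mpr h2) h3 h4
  refine ⟨?_, ?_, ?_, ?_⟩
  · rw [hr, e.1]
  · rw [hr, e.2.1]
  · exact (zpow_eq _ (-y) _).mp e.2.2.1
  · exact (zpow_eq _ z _).mp e.2.2.2

theorem W1.lr (h : W1 κ a b) (y z : ℤ) : W1 κ (lr κ y z a) (lr κ y z b) := by
  intro i p r h1 h2 h3 h4
  have k : ∀ d : ZMod 3 → Aut X, TP.lr κ y z d i p = (κ i ^ y) (d i ((κ (i + 1) ^ z) p)) :=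
    fun d => rfl
  rw [k] at h3 h4 ⊢
  rw [k]
  set p' := (κ (i + 1) ^ z) p with hp'
  set r' := (κ i ^ (-y)) r with hr'
  have hr : r = (κ i ^ y) r' := by
    rw [hr', ← Aut.mul_apply, ← zpow_add, add_neg_cancel, zpow_zero, Aut.one_apply]
  rw [hr] at h3 h4
  rw [Aut.le_iff] at h3 h4
  have e := h i p' r' ((zpow_le _ _ _).mpr h1) ((le_zpow _ _ _).mpr h2) h3 h4
  refine ⟨?_, ?_⟩
  · rw [hr, e.1]
  · rw [hr, e.2]

theorem lr_dual (y z : ℤ) : dualF (lr κ y z a) = lr (dualF κ) y z (dualF a) := by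
  funext i
  show Aut.dual (κ i ^ y * a i * κ (i + 1) ^ z) =
    (Aut.dual (κ i)) ^ y * Aut.dual (a i) * (Aut.dual (κ (i + 1))) ^ z
  rw [map_mul, map_mul, map_zpow, map_zpow]

theorem P.lr (h : P κ a b) (y z : ℤ) : P κ (lr κ y z a) (lr κ y z b) := by
  refine ⟨h.1.lr y z, ?_⟩
  have h1 : P1 (dualF κ) (dualF a) (dualF b) := h.2
  have h2 := h1.lr y z
  rw [← lr_dual, ← lr_dual] at h2
  exact P1.undual h2

theorem W.lr (h : W κ a b) (y z : ℤ) : W κ (lr κ y z a) (lr κ y z b) := by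
  refine ⟨h.1.lr y z, ?_⟩
  have h1 : W1 (dualF κ) (dualF a) (dualF b) := h.2
  have h2 := h1.lr y z
  rw [← lr_dual, ← lr_dual] at h2
  exact h2

theorem P.sh (h : P κ a b) (z : ℤ) : P κ (sh κ z a) (sh κ z b) := h.lr z (-z)
theorem W.sh (h : W κ a b) (z : ℤ) : W κ (sh κ z a) (sh κ z b) := h.lr z (-z)

theorem low_eq (κ a : ZMod 3 → Aut X) : low κ a = lr κ (-1) 0 a := by
  funext i
  show (κ i)⁻¹ * a i = κ i ^ (-1 : ℤ) * a i * κ (i + 1) ^ (0 : ℤ)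
  rw [zpow_neg_one, zpow_zero, mul_one]

theorem P.low (h : P κ a b) : P κ (low κ a) (low κ b) := by
  rw [low_eq, low_eq]; exact h.lr _ _
theorem W.low (h : W κ a b) : W κ (low κ a) (low κ b) := by
  rw [low_eq, low_eq]; exact h.lr _ _

/-! ### Twists -/

theorem twist_P1 (n : ℕ) (hn : 1 ≤ n) : P1 κ a (TP.sh κ n a) := by
  intro i p r h1 h2 h3 h4
  have hs : TP.sh κ (n : ℤ) a i p = (κ i ^ n) (a i (((κ (i + 1)) ^ n)⁻¹ p)) := by
    show (κ i ^ (n : ℤ) * a i * κ (i + 1) ^ (-(n : ℤ))) p = _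
    rw [zpow_neg, zpow_natCast, zpow_natCast]; rfl
  rw [hs] at h4 ⊢
  have g1 : ((κ (i + 1)) ^ n)⁻¹ p ≤ p := (inv_le_iff _ _ _).mpr (le_pow_iff _ h2 n)
  have g2 : a i (((κ (i + 1)) ^ n)⁻¹ p) ≤ r := ((Aut.le_iff _).mpr g1).trans h3
  have g3 : (κ i ^ n) r ≤ r := pow_le_iff _ h1 n
  have g4 : (κ i ^ n) (a i (((κ (i + 1)) ^ n)⁻¹ p)) ≤ (κ i ^ n) r := (Aut.le_iff _).mpr g2
  have e1 : (κ i ^ n) r = r := le_antisymm g3 (h4.trans g4)
  have e2 : a i (((κ (i + 1)) ^ n)⁻¹ p) = r := by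
    refine le_antisymm g2 ?_
    rw [← Aut.le_iff (κ i ^ n), e1]; exact h4
  have e3 : a i p = r := le_antisymm h3 (by rw [← e2]; exact (Aut.le_iff _).mpr g1)
  have e4 : ((κ (i + 1)) ^ n)⁻¹ p = p := by rw [← Aut.inj (a i), e2, e3]
  have e5 : ((κ (i + 1)) ^ n) p = p := by
    rw [← Aut.inj ((κ (i + 1)) ^ n)⁻¹, Aut.inv_self, e4]
  obtain ⟨m, rfl⟩ : ∃ m, n = m + 1 := ⟨n - 1, by omega⟩
  refine ⟨e3, by rw [e2, e1], le_antisymm h1 ?_, le_antisymm ?_ h2⟩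
  · have : (κ i ^ m) (κ i r) ≤ κ i r := pow_le_iff _ ((Aut.le_iff _).mpr h1) m
    rw [pow_succ, Aut.mul_apply] at e1
    rwa [e1] at this
  · have : κ (i + 1) p ≤ ((κ (i + 1)) ^ m) (κ (i + 1) p) :=
      le_pow_iff _ ((Aut.le_iff _).mpr h2) m
    rw [pow_succ, Aut.mul_apply] at e5
    rwa [e5] at this

theorem sh_dual (z : ℤ) : dualF (TP.sh κ z a) = TP.sh (dualF κ) z (dualF a) := lr_dual z (-z)

theorem twist_P (n : ℕ) (hn : 1 ≤ n) : P κ a (TP.sh κ n a) := by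
  refine ⟨twist_P1 n hn, ?_⟩
  have h := twist_P1 (κ := dualF κ) (a := dualF a) n hn
  rw [← sh_dual] at h
  exact P1.undual h

theorem twist_W (n : ℕ) : W κ a (TP.sh κ n a) := by
  rcases Nat.eq_zero_or_pos n with rfl | hn
  · have : TP.sh κ ((0 : ℕ) : ℤ) a = a := by rw [Nat.cast_zero]; exact sh_zero κ a
    rw [this]; exact W.refl κ a
  · exact (twist_P n hn).weak

end sem

/-! ### Rotation -/

/-- The family of the inverses, with the sheets in the reversed order. -/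
def hat {G : Type*} [Group G] (a : ZMod 3 → G) : ZMod 3 → G := fun j => (a (-1 - j))⁻¹

theorem hat_cyc {G : Type*} [Group G] {a : ZMod 3 → G} (h : Cyc a) : Cyc (hat a) := by
  intro j
  show (a (-1 - j))⁻¹ * (a (-1 - (j + 1)))⁻¹ * (a (-1 - (j + 2)))⁻¹ = 1
  have h1 := h (-1 - (j + 2))
  have e1 : -1 - (j + 2) + 1 = -1 - (j + 1) := by ring
  have e2 : -1 - (j + 2) + 2 = -1 - j := by ring
  rw [e1, e2] at h1
  rw [← mul_inv_rev, ← mul_inv_rev, ← mul_assoc, h1, inv_one]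

section sem

variable {X : Type*} [LinearOrder X] {κ a b c : ZMod 3 → Aut X}

/-- the loops of the rotated page -/
def rk (a b : ZMod 3 → Aut X) : ZMod 3 → Aut X := fun j => hat a j * (hat b j)⁻¹

theorem ix1 (k : ZMod 3) : -1 - (1 - k) = k + 1 := by revert k; decide
theorem ix2 (k : ZMod 3) : -1 - (1 - k + 1) = k := by revert k; decide

theorem rk_at1 (a b : ZMod 3 → Aut X) (k : ZMod 3) :
    rk a b (1 - k) = (a (k + 1))⁻¹ * b (k + 1) := by
  show (a (-1 - (1 - k)))⁻¹ * ((b (-1 - (1 - k)))⁻¹)⁻¹ = _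
  rw [inv_inv, ix1]

theorem rk_at2 (a b : ZMod 3 → Aut X) (k : ZMod 3) :
    rk a b (1 - k + 1) = (a k)⁻¹ * b k := by
  show (a (-1 - (1 - k + 1)))⁻¹ * ((b (-1 - (1 - k + 1)))⁻¹)⁻¹ = _
  rw [inv_inv, ix2]

theorem hat_at1 {G : Type*} [Group G] (a : ZMod 3 → G) (k : ZMod 3) :
    hat a (1 - k) = (a (k + 1))⁻¹ := by
  show (a (-1 - (1 - k)))⁻¹ = _
  rw [ix1]

theorem hat_dual : dualF (hat a) = hat (dualF a) := by
  funext i
  show Aut.dual ((a (-1 - i))⁻¹) = (Aut.dual (a (-1 - i)))⁻¹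
  rw [map_inv]

theorem rk_dual : dualF (rk a b) = rk (dualF a) (dualF b) := by
  funext i
  show Aut.dual (hat a i * (hat b i)⁻¹) = hat (dualF a) i * (hat (dualF b) i)⁻¹
  rw [map_mul, map_inv, ← hat_dual, ← hat_dual]
  rfl

theorem low_rk : low (rk a b) (hat a) = hat b := by
  funext i
  show (hat a i * (hat b i)⁻¹)⁻¹ * hat a i = hat b i
  group

theorem turn_Q1 (h : P κ a b) (ha : Cyc a) (hw : Cyc (low κ a)) :
    Q1 (rk a b) (hat a) (hat (low κ a)) := by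
  intro j p h1 h2 h3
  obtain ⟨k, rfl⟩ : ∃ k, j = 1 - k := ⟨1 - j, by ring⟩
  rw [rk_at1, hat_at1] at h1 ⊢
  rw [rk_at2] at h2 ⊢
  rw [hat_at1, hat_at1] at h3
  rw [hat_at1]
  set u : X := (a (k + 1))⁻¹ p with hu
  have au : a (k + 1) u = p := Aut.self_inv _ _
  have g1 : b (k + 1) u ≤ p := by
    rw [Aut.mul_apply, inv_le_iff, au] at h1; exact h1
  have g2 : a k p ≤ b k p := by
    rw [Aut.mul_apply, le_inv_iff] at h2; exact h2
  have key : ((low κ a) (k + 1))⁻¹ p = (a (k + 1))⁻¹ (κ (k + 1) p) := by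
    show ((κ (k + 1))⁻¹ * a (k + 1))⁻¹ p = _
    rw [mul_inv_rev, inv_inv, Aut.mul_apply]
  rw [key] at h3 ⊢
  have g3 : p ≤ κ (k + 1) p := (Aut.le_iff _).mp h3
  obtain ⟨e1, e2, e3⟩ := turn_core h ha hw k au g1 g2 g3
  refine ⟨by rw [e3], ?_, ?_⟩
  · rw [Aut.mul_apply, e1]
  · rw [Aut.mul_apply, e2, Aut.inv_self]

theorem P.dual (h : P κ a b) : P (dualF κ) (dualF a) (dualF b) := ⟨h.2, h.1⟩
theorem W.dual (h : W κ a b) : W (dualF κ) (dualF a) (dualF b) := ⟨h.2, h.1⟩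

/-- **Rotation.** A positive page is positive after rotation. -/
theorem P.turn (h : P κ a b) (ha : Cyc a) (hb : Cyc b) (hw : Cyc (TP.low κ a)) :
    P (rk a b) (hat a) (hat (TP.low κ a)) := by
  have q1 := turn_Q1 h ha hw
  have hw' : Cyc (TP.low (dualF κ) (dualF a)) := by rw [← low_dual]; exact hw.dual
  have q2 := turn_Q1 h.dual ha.dual hw'
  rw [← rk_dual, ← low_dual, ← hat_dual, ← hat_dual] at q2
  have q2' : Q2 (rk a b) (hat a) (hat (TP.low κ a)) := q2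
  refine P_of_Q q1 q2' (hat_cyc ha) (hat_cyc hw) ?_
  rw [low_rk]
  exact hat_cyc hb

/-! ### Absorption -/

theorem absorb_Q1 (h : W κ b a) (ha : Cyc a) (hw : Cyc (low κ a)) :
    Q1 (rk a (TP.sh κ (-1) b)) (hat a)
      (TP.sh (rk a (TP.sh κ (-1) b)) 1 (hat (low κ a))) := by
  intro j p h1 h2 h3
  obtain ⟨k, rfl⟩ : ∃ k, j = 1 - k := ⟨1 - j, by ring⟩
  have hb1 : ∀ i x, TP.sh κ (-1) b i x = (κ i)⁻¹ (b i (κ (i + 1) x)) := by
    intro i x
    show (κ i ^ (-1 : ℤ) * b i * κ (i + 1) ^ (-(-1 : ℤ))) x = _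
    rw [neg_neg, zpow_one, zpow_neg_one]; rfl
  have hm : ∀ x, TP.sh (rk a (TP.sh κ (-1) b)) 1 (hat (low κ a)) (1 - k) x =
      rk a (TP.sh κ (-1) b) (1 - k) ((hat (low κ a)) (1 - k)
        ((rk a (TP.sh κ (-1) b) (1 - k + 1))⁻¹ x)) := by
    intro x
    show (rk a (TP.sh κ (-1) b) (1 - k) ^ (1 : ℤ) * (hat (low κ a)) (1 - k) *
      rk a (TP.sh κ (-1) b) (1 - k + 1) ^ (-(1 : ℤ))) x = _
    rw [zpow_neg, zpow_one, zpow_one]; rfl
  rw [hm] at h3 ⊢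
  rw [rk_at1, hat_at1] at h1 ⊢
  rw [rk_at2] at h2 ⊢
  rw [rk_at1, rk_at2, hat_at1, hat_at1] at h3
  rw [hat_at1]
  set u : X := (a (k + 1))⁻¹ p with hu
  have au : a (k + 1) u = p := Aut.self_inv _ _
  -- the point `g`
  set g : X := ((a k)⁻¹ * TP.sh κ (-1) b k)⁻¹ p with hg
  have hg1 : TP.sh κ (-1) b k g = a k p := by
    have : ((a k)⁻¹ * TP.sh κ (-1) b k) g = p := Aut.self_inv _ _
    rw [Aut.mul_apply] at this
    rw [← Aut.inj (a k)⁻¹, this, Aut.inv_self]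
  set v : X := κ (k + 1) g with hv
  have bv : b k v = κ k (a k p) := by
    rw [hb1] at hg1
    rw [← hg1, Aut.self_inv]
  set z : X := (κ (k + 2))⁻¹ ((b (k + 1))⁻¹ (κ (k + 1) p)) with hz
  have bz : b (k + 1) (κ (k + 2) z) = κ (k + 1) p := by
    rw [hz, Aut.self_inv, Aut.self_inv]
  have lowg : ((low κ a) (k + 1))⁻¹ g = (a (k + 1))⁻¹ v := by
    show ((κ (k + 1))⁻¹ * a (k + 1))⁻¹ g = _
    rw [mul_inv_rev, inv_inv, Aut.mul_apply]
  rw [lowg] at h3 ⊢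
  -- (1)
  have c1 : u ≤ z := by
    rw [Aut.mul_apply, inv_le_iff, au, hb1, i11, inv_le_iff, ← bz, Aut.le_iff, Aut.le_iff] at h1
    exact h1
  -- (2)
  have c2 : v ≤ κ (k + 1) p := by
    rw [Aut.mul_apply, le_inv_iff, hb1, le_inv_iff, ← bv, Aut.le_iff] at h2
    exact h2
  -- (3)
  have c3 : a (k + 1) z ≤ v := by
    rw [Aut.mul_apply, le_inv_iff, au, hb1, i11, le_inv_iff, ← bz, Aut.le_iff, Aut.le_iff,
      le_inv_iff] at h3
    exact h3
  obtain ⟨e1, e2, e3⟩ := absorb_core h.2 h.1 ha hw k au bv bz c2 c1 c3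
  have f1 : TP.sh κ (-1) b (k + 1) u = p := by
    rw [hb1, i11, ← e1, bz, Aut.inv_self]
  have f2 : TP.sh κ (-1) b k p = a k p := by
    rw [hb1, e3]
    rw [e2] at bv
    rw [bv, Aut.inv_self]
  refine ⟨?_, ?_, ?_⟩
  · rw [e2, ← hu, Aut.mul_apply, f1]
  · rw [Aut.mul_apply, f1]
  · rw [Aut.mul_apply, f2, Aut.inv_self]

/-- **Absorption.** The rotation of `D` and one negative twist, with a positive twist, is positive, if
`D` is not positive. -/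
theorem absorb (h : W κ b a) (ha : Cyc a) (hb : Cyc b) (hw : Cyc (low κ a)) :
    P (rk a (TP.sh κ (-1) b)) (hat a)
      (TP.sh (rk a (TP.sh κ (-1) b)) 1 (hat (low κ a))) := by
  have q1 := absorb_Q1 h ha hw
  have hw' : Cyc (low (dualF κ) (dualF a)) := by rw [← low_dual]; exact hw.dual
  have q2 := absorb_Q1 h.dual ha.dual hw'
  rw [← sh_dual, ← rk_dual, ← low_dual, ← hat_dual, ← hat_dual, ← sh_dual] at q2
  have q2' : Q2 (rk a (TP.sh κ (-1) b)) (hat a)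
      (TP.sh (rk a (TP.sh κ (-1) b)) 1 (hat (low κ a))) := q2
  refine P_of_Q q1 q2' (hat_cyc ha) (sh_cyc _ (hat_cyc hw)) ?_
  rw [low_rk]
  exact hat_cyc (sh_cyc _ hb)

end sem

end Pool.Agent.Q184.TP
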