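import Pool.Agent.Y479.LS.Aut

set_option autoImplicit false
set_option linter.unusedSectionVars false

/-!
# Families of order automorphisms over the three sheets

`a i` is an automorphism of a linear order `X`, thought of as a map from the sheet `i + 1` to the sheet
`i` (the lift of a meridian), and `κ i` acts on the sheet `i` (the lift of a loop around two strings).
-/

namespace Pool.Agent.Q184.TP

open Pool.Agent.Y479.LS

/-- The product over the three sheets is one. -/
def Cyc {G : Type*} [Group G] (a : ZMod 3 → G) : Prop := ∀ i, a i * a (i + 1) * a (i + 2) = 1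

theorem i11 (i : ZMod 3) : i + 1 + 1 = i + 2 := by ring
theorem i12 (i : ZMod 3) : i + 1 + 2 = i := by revert i; decide
theorem i21 (i : ZMod 3) : i + 2 + 1 = i := by revert i; decide
theorem i22 (i : ZMod 3) : i + 2 + 2 = i + 1 := by revert i; decide

theorem Cyc.of_zero {G : Type*} [Group G] {a : ZMod 3 → G} (h : a 0 * a 1 * a 2 = 1) : Cyc a := by
  have h1 : a 1 * a 2 * a 0 = 1 := by
    have : a 1 * a 2 * a 0 = (a 0)⁻¹ * (a 0 * a 1 * a 2) * a 0 := by group
    rw [this, h]; group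
  have h2 : a 2 * a 0 * a 1 = 1 := by
    have : a 2 * a 0 * a 1 = (a 0 * a 1)⁻¹ * (a 0 * a 1 * a 2) * (a 0 * a 1) := by group
    rw [this, h]; group
  intro i
  have hi : i = 0 ∨ i = 1 ∨ i = 2 := by revert i; decide
  rcases hi with rfl | rfl | rfl
  · exact h
  · exact h1
  · exact h2

section sem

variable {X : Type*} [LinearOrder X]

/-- the same family on the reversed order -/
def dualF (a : ZMod 3 → Aut X) : ZMod 3 → Aut Xᵒᵈ := fun i => Aut.dual (a i)

theorem Cyc.dual {a : ZMod 3 → Aut X} (h : Cyc a) : Cyc (dualF a) := by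
  intro i
  show Aut.dual (a i) * Aut.dual (a (i + 1)) * Aut.dual (a (i + 2)) = 1
  rw [← map_mul, ← map_mul, h i, map_one]

theorem Cyc.app {a : ZMod 3 → Aut X} (h : Cyc a) (i : ZMod 3) (p : X) :
    a i (a (i + 1) (a (i + 2) p)) = p := by
  rw [← Aut.mul_apply, ← Aut.mul_apply, h i, Aut.one_apply]

/-- the other string -/
def low (κ a : ZMod 3 → Aut X) : ZMod 3 → Aut X := fun i => (κ i)⁻¹ * a i

theorem low_dual (κ a : ZMod 3 → Aut X) : dualF (low κ a) = low (dualF κ) (dualF a) := by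
  funext i
  show Aut.dual ((κ i)⁻¹ * a i) = (Aut.dual (κ i))⁻¹ * Aut.dual (a i)
  rw [map_mul, map_inv]

variable {κ a b c : ZMod 3 → Aut X}

theorem le_inv_iff (f : Aut X) (x y : X) : x ≤ f⁻¹ y ↔ f x ≤ y := by
  rw [← Aut.le_iff f, Aut.self_inv]
theorem inv_le_iff (f : Aut X) (x y : X) : f⁻¹ x ≤ y ↔ x ≤ f y := by
  rw [← Aut.le_iff f, Aut.self_inv]

/-- Not all `κ i` push down a section of `a`. -/
theorem cyc_le (ha : Cyc a) (hw : Cyc (low κ a)) (i : ZMod 3) {p q s : X} (hq : a i q = p)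
    (hs : a (i + 1) s = q) (h0 : κ i p ≤ p) (h1 : κ (i + 1) q ≤ q) (h2 : κ (i + 2) s ≤ s) :
    κ i p = p ∧ κ (i + 1) q = q ∧ κ (i + 2) s = s := by
  have e1 : a (i + 2) p = s := by
    have := ha.app i p
    rw [← hq, ← hs, Aut.inj, Aut.inj] at this
    rw [← hq, ← hs]; exact this
  have w0 : p ≤ low κ a i q := by
    show p ≤ ((κ i)⁻¹ * a i) q
    rw [Aut.mul_apply, hq, le_inv_iff]; exact h0
  have w1 : q ≤ low κ a (i + 1) s := by
    show q ≤ ((κ (i + 1))⁻¹ * a (i + 1)) s
    rw [Aut.mul_apply, hs, le_inv_iff]; exact h1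
  have w2 : s ≤ low κ a (i + 2) p := by
    show s ≤ ((κ (i + 2))⁻¹ * a (i + 2)) p
    rw [Aut.mul_apply, e1, le_inv_iff]; exact h2
  have hc := hw.app i p
  have c1 : low κ a i q ≤ low κ a i (low κ a (i + 1) s) := (Aut.le_iff _).mpr w1
  have c2 : low κ a i (low κ a (i + 1) s) ≤ p := by
    conv_rhs => rw [← hc]
    exact (Aut.le_iff _).mpr ((Aut.le_iff _).mpr w2)
  have d0 : low κ a i q = p := le_antisymm (c1.trans c2) w0
  have d1 : low κ a (i + 1) s = q := by
    refine le_antisymm ?_ w1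
    rw [← Aut.le_iff (low κ a i), d0]; exact c2
  have d2 : low κ a (i + 2) p = s := by
    refine le_antisymm ?_ w2
    rw [← Aut.le_iff (low κ a (i + 1)), ← Aut.le_iff (low κ a i), hc, d1, d0]
  refine ⟨?_, ?_, ?_⟩
  · have : (κ i)⁻¹ p = p := by
      have h := d0
      change ((κ i)⁻¹ * a i) q = p at h
      rwa [Aut.mul_apply, hq] at h
    rw [← Aut.inj (κ i)⁻¹, Aut.inv_self, this]
  · have : (κ (i + 1))⁻¹ q = q := by
      have h := d1
      change ((κ (i + 1))⁻¹ * a (i + 1)) s = q at h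
      rwa [Aut.mul_apply, hs] at h
    rw [← Aut.inj (κ (i + 1))⁻¹, Aut.inv_self, this]
  · have : (κ (i + 2))⁻¹ s = s := by
      have h := d2
      change ((κ (i + 2))⁻¹ * a (i + 2)) p = s at h
      rwa [Aut.mul_apply, e1] at h
    rw [← Aut.inj (κ (i + 2))⁻¹, Aut.inv_self, this]

theorem cyc_ge (ha : Cyc a) (hw : Cyc (low κ a)) (i : ZMod 3) {p q s : X} (hq : a i q = p)
    (hs : a (i + 1) s = q) (h0 : p ≤ κ i p) (h1 : q ≤ κ (i + 1) q) (h2 : s ≤ κ (i + 2) s) :
    κ i p = p ∧ κ (i + 1) q = q ∧ κ (i + 2) s = s := by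
  have hw' : Cyc (low (dualF κ) (dualF a)) := by rw [← low_dual]; exact hw.dual
  exact cyc_le (X := Xᵒᵈ) ha.dual hw' i (p := OrderDual.toDual p) (q := OrderDual.toDual q)
    (s := OrderDual.toDual s) hq hs h0 h1 h2

/-- The comparison of `b` with `a`, first half. -/
def P1 (κ a b : ZMod 3 → Aut X) : Prop :=
  ∀ (i : ZMod 3) (p r : X), κ i r ≤ r → p ≤ κ (i + 1) p → a i p ≤ r → r ≤ b i p →
    a i p = r ∧ b i p = r ∧ κ i r = r ∧ κ (i + 1) p = p

/-- The comparison of `b` with `a`, second half. -/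
def P2 (κ a b : ZMod 3 → Aut X) : Prop :=
  ∀ (i : ZMod 3) (p r : X), r ≤ κ i r → κ (i + 1) p ≤ p → r ≤ a i p → b i p ≤ r →
    a i p = r ∧ b i p = r ∧ κ i r = r ∧ κ (i + 1) p = p

/-- The page is positive: where `κ` moves down the end point and up the starting point, `b` is below
`a`. -/
def P (κ a b : ZMod 3 → Aut X) : Prop := P1 κ a b ∧ P2 κ a b

/-- the weak comparison, first half -/
def W1 (κ a b : ZMod 3 → Aut X) : Prop :=
  ∀ (i : ZMod 3) (p r : X), κ i r ≤ r → p ≤ κ (i + 1) p → a i p ≤ r → r ≤ b i p →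
    a i p = r ∧ b i p = r

/-- the weak comparison, second half -/
def W2 (κ a b : ZMod 3 → Aut X) : Prop :=
  ∀ (i : ZMod 3) (p r : X), r ≤ κ i r → κ (i + 1) p ≤ p → r ≤ a i p → b i p ≤ r →
    a i p = r ∧ b i p = r

/-- The page is nonnegative. -/
def W (κ a b : ZMod 3 → Aut X) : Prop := W1 κ a b ∧ W2 κ a b

theorem P.weak (h : P κ a b) : W κ a b :=
  ⟨fun i p r h1 h2 h3 h4 => ⟨(h.1 i p r h1 h2 h3 h4).1, (h.1 i p r h1 h2 h3 h4).2.1⟩,
    fun i p r h1 h2 h3 h4 => ⟨(h.2 i p r h1 h2 h3 h4).1, (h.2 i p r h1 h2 h3 h4).2.1⟩⟩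

theorem P1.dual (h : P1 κ a b) : P2 (dualF κ) (dualF a) (dualF b) := h
theorem P2.dual (h : P2 κ a b) : P1 (dualF κ) (dualF a) (dualF b) := h
theorem P1.undual (h : P1 (dualF κ) (dualF a) (dualF b)) : P2 κ a b := h
theorem W1.dual (h : W1 κ a b) : W2 (dualF κ) (dualF a) (dualF b) := h
theorem W2.dual (h : W2 κ a b) : W1 (dualF κ) (dualF a) (dualF b) := h

/-- The comparison at the points `a i p`, first half. -/
def Q1 (κ a b : ZMod 3 → Aut X) : Prop :=
  ∀ (i : ZMod 3) (p : X), κ i (a i p) ≤ a i p → p ≤ κ (i + 1) p → a i p ≤ b i p →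
    b i p = a i p ∧ κ i (a i p) = a i p ∧ κ (i + 1) p = p

/-- The comparison at the points `a i p`, second half. -/
def Q2 (κ a b : ZMod 3 → Aut X) : Prop :=
  ∀ (i : ZMod 3) (p : X), a i p ≤ κ i (a i p) → κ (i + 1) p ≤ p → b i p ≤ a i p →
    b i p = a i p ∧ κ i (a i p) = a i p ∧ κ (i + 1) p = p

/-- Comparison at two points. -/
theorem lemA (hq1 : Q1 κ a b) (hq2 : Q2 κ a b) (ha : Cyc a) (hb : Cyc b) (hw : Cyc (low κ a))
    (i : ZMod 3) (p r : X) (h1 : κ i r ≤ r) (h2 : p ≤ κ (i + 1) p) (h3 : a i p < r)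
    (h4 : r ≤ b i p) : False := by
  set p1 : X := (a i)⁻¹ r with hp1
  have ap1 : a i p1 = r := Aut.self_inv _ _
  set t : X := (a (i + 1))⁻¹ p1 with ht
  have at' : a (i + 1) t = p1 := Aut.self_inv _ _
  have a2r : a (i + 2) r = t := by
    have := ha.app i r
    conv_rhs at this => rw [← ap1, ← at']
    rwa [Aut.inj, Aut.inj] at this
  have pp1 : p < p1 := by rw [← Aut.lt_iff (a i), ap1]; exact h3
  have bp1 : r < b i p1 := lt_of_le_of_lt h4 ((Aut.lt_iff _).mpr pp1)
  -- step 1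
  have s1 : κ (i + 1) p1 < p1 := by
    by_contra hc
    push Not at hc
    have := (hq1 i p1 (by rw [ap1]; exact h1) hc (by rw [ap1]; exact bp1.le)).1
    rw [ap1] at this
    exact absurd this bp1.ne'
  -- step 2
  have s2 : t < κ (i + 2) t := by
    by_contra hc
    push Not at hc
    have := (cyc_le ha hw i ap1 at' h1 s1.le hc).2.1
    exact absurd this s1.ne
  -- step 3
  have s3 : t < b (i + 2) r := by
    by_contra hc
    push Not at hc
    have := (hq2 (i + 2) r (by rw [a2r]; exact s2.le) (by rw [i21]; exact h1)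
      (by rw [a2r]; exact hc)).2.1
    rw [a2r] at this
    exact absurd this s2.ne'
  -- step 4
  have s4 : a i p < κ i (a i p) := by
    by_contra hc
    push Not at hc
    have := (hq1 i p hc h2 (h3.le.trans h4)).1
    rw [this] at h4
    exact absurd h3 (not_lt.mpr h4)
  -- step 5
  set u : X := (a (i + 1))⁻¹ p with hu
  have au : a (i + 1) u = p := Aut.self_inv _ _
  have s5 : κ (i + 2) u < u := by
    by_contra hc
    push Not at hc
    have := (cyc_ge ha hw i rfl au s4.le h2 hc).1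
    exact absurd this s4.ne'
  -- step 6
  have s6 : p < b (i + 1) u := by
    by_contra hc
    push Not at hc
    have := (hq2 (i + 1) u (by rw [au]; exact h2) (by rw [i11]; exact s5.le)
      (by rw [au]; exact hc)).2.2
    rw [i11] at this
    exact absurd this s5.ne
  -- step 7
  have c1 : b (i + 2) (b i (b (i + 1) u)) = u := by
    have := hb.app (i + 2) u
    rwa [i21, i22] at this
  have c2 : t < u := by
    calc t < b (i + 2) r := s3
      _ ≤ b (i + 2) (b i p) := (Aut.le_iff _).mpr h4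
      _ ≤ b (i + 2) (b i (b (i + 1) u)) := (Aut.le_iff _).mpr ((Aut.le_iff _).mpr s6.le)
      _ = u := c1
  have c3 : p1 < p := by
    rw [← at', ← au]; exact (Aut.lt_iff _).mpr c2
  exact absurd pp1 (not_lt.mpr c3.le)

theorem P1_of_Q (hq1 : Q1 κ a b) (hq2 : Q2 κ a b) (ha : Cyc a) (hb : Cyc b)
    (hw : Cyc (low κ a)) : P1 κ a b := by
  intro i p r h1 h2 h3 h4
  rcases h3.lt_or_eq with h | h
  · exact (lemA hq1 hq2 ha hb hw i p r h1 h2 h h4).elim
  · subst h
    obtain ⟨e1, e2, e3⟩ := hq1 i p h1 h2 h4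
    exact ⟨rfl, e1, e2, e3⟩

theorem P_of_Q (hq1 : Q1 κ a b) (hq2 : Q2 κ a b) (ha : Cyc a) (hb : Cyc b)
    (hw : Cyc (low κ a)) : P κ a b := by
  refine ⟨P1_of_Q hq1 hq2 ha hb hw, ?_⟩
  have hw' : Cyc (low (dualF κ) (dualF a)) := by rw [← low_dual]; exact hw.dual
  have h1 : Q1 (dualF κ) (dualF a) (dualF b) := hq2
  have h2 : Q2 (dualF κ) (dualF a) (dualF b) := hq1
  exact P1.undual (P1_of_Q h1 h2 ha.dual hb.dual hw')

/-- the closing condition -/
theorem close (h : P κ a a) (ha : Cyc a) (hw : Cyc (low κ a)) (i : ZMod 3) (p : X) :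
    κ i p = p := by
  set q : X := (a i)⁻¹ p with hq
  have aq : a i q = p := Aut.self_inv _ _
  set s : X := (a (i + 1))⁻¹ q with hs
  have as : a (i + 1) s = q := Aut.self_inv _ _
  have a2p : a (i + 2) p = s := by
    have := ha.app i p
    conv_rhs at this => rw [← aq, ← as]
    rwa [Aut.inj, Aut.inj] at this
  have k1 : ∀ (j : ZMod 3) (x y : X), a j x = y → κ j y ≤ y → x ≤ κ (j + 1) x →
      κ j y = y ∧ κ (j + 1) x = x := fun j x y hxy g1 g2 => by
    have := h.1 j x y g1 g2 hxy.le hxy.ge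
    exact ⟨this.2.2.1, this.2.2.2⟩
  have k2 : ∀ (j : ZMod 3) (x y : X), a j x = y → y ≤ κ j y → κ (j + 1) x ≤ x →
      κ j y = y ∧ κ (j + 1) x = x := fun j x y hxy g1 g2 => by
    have := h.2 j x y g1 g2 hxy.ge hxy.le
    exact ⟨this.2.2.1, this.2.2.2⟩
  rcases le_total (κ i p) p with g0 | g0
  · rcases le_total (κ (i + 1) q) q with g1 | g1
    · rcases le_total (κ (i + 2) s) s with g2 | g2
      · exact (cyc_le ha hw i aq as g0 g1 g2).1
      · have := k2 (i + 2) p s a2p g2 (by rw [i21]; exact g0)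
        rw [i21] at this
        exact this.2
    · exact (k1 i q p aq g0 g1).1
  · rcases le_total (κ (i + 1) q) q with g1 | g1
    · exact (k2 i q p aq g0 g1).1
    · rcases le_total (κ (i + 2) s) s with g2 | g2
      · have := k1 (i + 2) p s a2p g2 (by rw [i21]; exact g0)
        rw [i21] at this
        exact this.2
      · exact (cyc_ge ha hw i aq as g0 g1 g2).1

/-- The core of the rotation lemma. -/
theorem turn_core (h : P κ a b) (ha : Cyc a) (hw : Cyc (low κ a)) (k : ZMod 3) {p u : X}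
    (hu : a (k + 1) u = p) (h1 : b (k + 1) u ≤ p) (h2 : a k p ≤ b k p) (h3 : p ≤ κ (k + 1) p) :
    b (k + 1) u = p ∧ b k p = a k p ∧ κ (k + 1) p = p := by
  rcases le_or_gt (κ k (a k p)) (a k p) with g | g
  · obtain ⟨-, e1, e2, e3⟩ := h.1 k p (a k p) g h3 le_rfl h2
    have e4 : κ (k + 2) u = u := by
      rcases le_total (κ (k + 2) u) u with f | f
      · exact (cyc_le ha hw k rfl hu g e3.le f).2.2
      · exact (cyc_ge ha hw k rfl hu e2.ge e3.ge f).2.2
    have e5 := h.2 (k + 1) u p h3 (by rw [i11]; exact e4.le) hu.ge h1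
    exact ⟨e5.2.1, e1, e3⟩
  · have e4 : κ (k + 2) u < u := by
      by_contra hc
      push Not at hc
      exact absurd (cyc_ge ha hw k rfl hu g.le h3 hc).1 g.ne'
    have e5 := h.2 (k + 1) u p h3 (by rw [i11]; exact e4.le) hu.ge h1
    rw [i11] at e5
    exact absurd e5.2.2.2 e4.ne

/-- The core of the absorption lemma. -/
theorem absorb_core (h1 : W2 κ b a) (h2 : W1 κ b a) (ha : Cyc a) (hw : Cyc (low κ a))
    (k : ZMod 3) {p v u z : X} (hu : a (k + 1) u = p) (hv : b k v = κ k (a k p))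
    (hz : b (k + 1) (κ (k + 2) z) = κ (k + 1) p) (g1 : v ≤ κ (k + 1) p) (g2 : u ≤ z)
    (g3 : a (k + 1) z ≤ v) : z = u ∧ v = p ∧ κ (k + 1) p = p := by
  have pz : p ≤ a (k + 1) z := by rw [← hu]; exact (Aut.le_iff _).mpr g2
  have pv : p ≤ v := pz.trans g3
  have pk : p ≤ κ (k + 1) p := pv.trans g1
  have kv : v ≤ κ (k + 1) v := g1.trans ((Aut.le_iff _).mpr pv)
  rcases le_or_gt (κ k (a k p)) (a k p) with g | g
  · -- first case
    have e1 := h2 k v (a k p) g kv (by rw [hv]; exact g) ((Aut.le_iff _).mpr pv)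
    have e2 : v = p := by rw [← Aut.inj (a k)]; exact e1.2
    have e3 : κ k (a k p) = a k p := by rw [← hv]; exact e1.1
    have e4 : z = u := by
      refine le_antisymm ?_ g2
      rw [← Aut.le_iff (a (k + 1)), hu]; exact g3.trans e2.le
    refine ⟨e4, e2, le_antisymm ?_ pk⟩
    by_contra hc
    push Not at hc
    have ku : κ (k + 2) u < u := by
      by_contra hc2
      push Not at hc2
      exact absurd (cyc_ge ha hw k rfl hu e3.ge hc.le hc2).2.1 hc.ne'
    have e5 := h1 (k + 1) (κ (k + 2) u) p hc.le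
      (by rw [i11]; exact (Aut.le_iff _).mpr ku.le)
      (by rw [← e4, hz]; exact hc.le)
      (by rw [← hu]; exact (Aut.le_iff _).mpr ku.le)
    have e6 := e5.1
    rw [← e4, hz] at e6
    exact absurd e6 hc.ne'
  · -- second case
    exfalso
    have ka : a (k + 1) z ≤ κ (k + 1) (a (k + 1) z) :=
      (g3.trans g1).trans ((Aut.le_iff _).mpr pz)
    have az : a k p ≤ a k (a (k + 1) z) := (Aut.le_iff _).mpr pz
    have azv : a k (a (k + 1) z) ≤ a k v := (Aut.le_iff _).mpr g3
    have kz : κ (k + 2) z ≤ z := by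
      by_contra hc
      push Not at hc
      have f1 : κ k (a k (a (k + 1) z)) < a k (a (k + 1) z) := by
        by_contra hc2
        push Not at hc2
        exact absurd (cyc_ge ha hw k rfl rfl hc2 ka hc.le).2.2 hc.ne'
      -- N1 with `p' = v` and `r = a k (a (k + 1) z)`
      have f2 : a k (a (k + 1) z) ≤ b k v := by
        by_contra hc3
        push Not at hc3
        have := (h2 k v _ f1.le kv hc3.le azv).1
        exact absurd this hc3.ne
      rw [hv] at f2
      have f3 : κ k (a k p) ≤ κ k (a k (a (k + 1) z)) := (Aut.le_iff _).mpr az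
      exact absurd (f2.trans f3) (not_le.mpr f1)
    have f4 := h1 (k + 1) (κ (k + 2) z) (a (k + 1) z) ka
      (by rw [i11]; exact (Aut.le_iff _).mpr kz)
      (by rw [hz]; exact g3.trans g1)
      ((Aut.le_iff _).mpr kz)
    have f5 : κ (k + 2) z = z := by rw [← Aut.inj (a (k + 1))]; exact f4.2
    have f6 : κ (k + 1) p = a (k + 1) z := by rw [← hz]; exact f4.1
    have f7 : v = a (k + 1) z := le_antisymm (g1.trans f6.le) g3
    have f8 : κ k (a k v) ≤ a k v := by
      rw [f7]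
      by_contra hc
      push Not at hc
      exact absurd (cyc_ge ha hw k rfl rfl hc.le ka f5.ge).1 hc.ne'
    have f9 : a k v ≤ b k v := by
      by_contra hc
      push Not at hc
      have := (h2 k v _ f8 kv hc.le le_rfl).1
      exact absurd this hc.ne
    rw [hv] at f9
    have f10 : κ k (a k p) ≤ κ k (a k v) := (Aut.le_iff _).mpr ((Aut.le_iff _).mpr pv)
    have f11 : κ k (a k p) = κ k (a k v) := le_antisymm f10 (f8.trans f9)
    have f12 : κ k (a k v) = a k v := le_antisymm f8 (f9.trans f10)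
    rw [Aut.inj] at f11
    rw [f11, f12] at g
    exact absurd g (lt_irrefl _)

end sem

end Pool.Agent.Q184.TP
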