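import Pool.Agent.Q184.TP.Ops

set_option autoImplicit false
set_option linter.unusedSectionVars false

/-!
# Tangles with antiparallel ends, seen through their 3-fold cyclic branched covers
-/

namespace Pool.Agent.Q184.TP

open Pool.Agent.Y479.LS

/-- An oriented tangle with four ends: north-west and south-east (the strings enter there), north-east
and south-west (the strings leave there). It is given by the lifts of its meridians to the 3-fold cyclic
cover: generators and relators of the fundamental group, and for each end the three lifts `nw i`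
etc. of the meridian of this end, where `i` is the sheet where the lift begins (it ends in the sheet
`i + 1`). -/
structure Tangle where
  gen : Type
  rel : Set (FreeGroup gen)
  nw : ZMod 3 → FreeGroup gen
  sw : ZMod 3 → FreeGroup gen
  ne : ZMod 3 → FreeGroup gen
  se : ZMod 3 → FreeGroup gen

namespace Tangle

/-- the generators of a twist region -/
def top (i : ZMod 3) : FreeGroup (Bool × ZMod 3) := FreeGroup.of (false, i)
/-- the generators of a twist region -/
def bot (i : ZMod 3) : FreeGroup (Bool × ZMod 3) := FreeGroup.of (true, i)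
/-- the lifts of the loop around the two strings of a twist region -/
def lp (i : ZMod 3) : FreeGroup (Bool × ZMod 3) := top i * (bot i)⁻¹

/-- A horizontal twist region with `2 |a|` crossings: two antiparallel strings with `a` full twists.
The meridians are conjugated by the `a`-th power of the loop around both strings. The
relators say that the product of the three lifts of a meridian is one (branching). -/
def twist (a : ℤ) : Tangle where
  gen := Bool × ZMod 3
  rel := {top 0 * top 1 * top 2, bot 0 * bot 1 * bot 2}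
  nw := top
  sw := bot
  ne := fun i => lp i ^ a * top i * lp (i + 1) ^ (-a)
  se := fun i => lp i ^ a * bot i * lp (i + 1) ^ (-a)

/-- The sum: `S` on the left, `T` on the right; the eastern ends of `S` are joined to the western ends
of `T`. -/
def add (S T : Tangle) : Tangle where
  gen := S.gen ⊕ T.gen
  rel := FreeGroup.map Sum.inl '' S.rel ∪ FreeGroup.map Sum.inr '' T.rel ∪
    (Set.range fun i => FreeGroup.map Sum.inl (S.ne i) * (FreeGroup.map Sum.inr (T.nw i))⁻¹) ∪
    (Set.range fun i => FreeGroup.map Sum.inl (S.se i) * (FreeGroup.map Sum.inr (T.sw i))⁻¹)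
  nw := fun i => FreeGroup.map Sum.inl (S.nw i)
  sw := fun i => FreeGroup.map Sum.inl (S.sw i)
  ne := fun i => FreeGroup.map Sum.inr (T.ne i)
  se := fun i => FreeGroup.map Sum.inr (T.se i)

/-- The inverse tangle: the reflection in the vertical plane through the north-west and the south-east
end, without a change of the crossings (the overcrossing string remains the overcrossing string). The
reflection reverses the products in the fundamental group; so the inverses of the meridians are used,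
and the order of the sheets is reversed. -/
def inv (S : Tangle) : Tangle where
  gen := S.gen
  rel := S.rel
  nw := fun i => (S.nw (-1 - i))⁻¹
  sw := fun i => (S.ne (-1 - i))⁻¹
  ne := fun i => (S.sw (-1 - i))⁻¹
  se := fun i => (S.se (-1 - i))⁻¹

/-- The relators for the numerator closure (north-west joined to north-east, south-west joined to
south-east); the lifts `nw i` are the tree that joins the base points of the sheets. -/
def closeRel (S : Tangle) : Set (FreeGroup S.gen) :=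
  S.rel ∪ (Set.range fun i => S.nw i * (S.ne i)⁻¹) ∪ (Set.range fun i => S.sw i * (S.se i)⁻¹) ∪
    Set.range S.nw

/-- The fundamental group of the 3-fold cyclic branched cover of the numerator closure. -/
def Cover (S : Tangle) : Type := PresentedGroup S.closeRel

instance (S : Tangle) : Group S.Cover := inferInstanceAs (Group (PresentedGroup S.closeRel))

section sem

variable {X : Type} [LinearOrder X]

/-- actions of the group of a tangle -/
def Sat (S : Tangle) (φ : FreeGroup S.gen →* Aut X) : Prop := ∀ r ∈ S.rel, φ r = 1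

/-- the families of automorphisms -/
def fam {g : Type} (φ : FreeGroup g →* Aut X) (a : ZMod 3 → FreeGroup g) : ZMod 3 → Aut X :=
  fun i => φ (a i)

/-- the loops around the two western ends -/
def loop (S : Tangle) (φ : FreeGroup S.gen →* Aut X) : ZMod 3 → Aut X :=
  fun i => φ (S.nw i) * (φ (S.sw i))⁻¹

/-- powers of a family -/
def pwr (κ : ZMod 3 → Aut X) (e : ℤ) : ZMod 3 → Aut X := fun i => κ i ^ e

theorem sh_pwr (κ : ZMod 3 → Aut X) (e z : ℤ) (b : ZMod 3 → Aut X) :
    sh (pwr κ e) z b = sh κ (e * z) b := by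
  funext i
  show (κ i ^ e) ^ z * b i * (κ (i + 1) ^ e) ^ (-z) = κ i ^ (e * z) * b i * κ (i + 1) ^ (-(e * z))
  rw [← zpow_mul, ← zpow_mul, mul_neg]

end sem

/-- The meridians of the ends have product one over the sheets, and the loops around the western ends
are the loops around the eastern ends. -/
structure Std (S : Tangle) : Prop where
  cnw : ∀ (X : Type) [LinearOrder X] (φ : FreeGroup S.gen →* Aut X), S.Sat φ → Cyc (fam φ S.nw)
  csw : ∀ (X : Type) [LinearOrder X] (φ : FreeGroup S.gen →* Aut X), S.Sat φ → Cyc (fam φ S.sw)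
  cne : ∀ (X : Type) [LinearOrder X] (φ : FreeGroup S.gen →* Aut X), S.Sat φ → Cyc (fam φ S.ne)
  cse : ∀ (X : Type) [LinearOrder X] (φ : FreeGroup S.gen →* Aut X), S.Sat φ → Cyc (fam φ S.se)
  lp : ∀ (X : Type) [LinearOrder X] (φ : FreeGroup S.gen →* Aut X), S.Sat φ → ∀ i,
    φ (S.nw i) * (φ (S.sw i))⁻¹ = φ (S.ne i) * (φ (S.se i))⁻¹

/-- lower bound `z` for the tangle with the sign `e`, strict -/
def Pos (e z : ℤ) (S : Tangle) : Prop :=
  ∀ (X : Type) [LinearOrder X] (φ : FreeGroup S.gen →* Aut X), S.Sat φ →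
    P (pwr (S.loop φ) e) (fam φ S.nw) (sh (pwr (S.loop φ) e) z (fam φ S.ne))

/-- lower bound `z` for the tangle with the sign `e` -/
def NN (e z : ℤ) (S : Tangle) : Prop :=
  ∀ (X : Type) [LinearOrder X] (φ : FreeGroup S.gen →* Aut X), S.Sat φ →
    W (pwr (S.loop φ) e) (fam φ S.nw) (sh (pwr (S.loop φ) e) z (fam φ S.ne))

/-- If the western meridians are trivial then everything is. -/
def Rig (S : Tangle) : Prop :=
  ∀ (X : Type) [LinearOrder X] (φ : FreeGroup S.gen →* Aut X), S.Sat φ →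
    (∀ i, φ (S.nw i) = 1) → (∀ i, φ (S.sw i) = 1) → ∀ g, φ g = 1

theorem Pos.nn {e z : ℤ} {S : Tangle} (h : Pos e z S) : NN e z S :=
  fun X _ φ hφ => (h X φ hφ).weak

variable {X : Type} [LinearOrder X]

theorem low_loop (S : Tangle) (φ : FreeGroup S.gen →* Aut X) :
    low (S.loop φ) (fam φ S.nw) = fam φ S.sw := by
  funext i
  show (φ (S.nw i) * (φ (S.sw i))⁻¹)⁻¹ * φ (S.nw i) = φ (S.sw i)
  group

theorem low_loop' {S : Tangle} (hs : Std S) (φ : FreeGroup S.gen →* Aut X) (hφ : S.Sat φ) :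
    low (S.loop φ) (fam φ S.ne) = fam φ S.se := by
  funext i
  show (φ (S.nw i) * (φ (S.sw i))⁻¹)⁻¹ * φ (S.ne i) = φ (S.se i)
  rw [hs.lp X φ hφ i]
  group

/-! ### Twist regions -/

theorem twist_aux (a : ℤ) (φ : FreeGroup (Bool × ZMod 3) →* Aut X) (i : ZMod 3)
    (x : FreeGroup (Bool × ZMod 3)) :
    φ (Tangle.lp i ^ a * x * Tangle.lp (i + 1) ^ (-a)) =
    (φ (top i) * (φ (bot i))⁻¹) ^ a * φ x *
      (φ (top (i + 1)) * (φ (bot (i + 1)))⁻¹) ^ (-a) := by
  rw [map_mul, map_mul, map_zpow, map_zpow]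
  rw [Tangle.lp, Tangle.lp, map_mul, map_mul, map_inv, map_inv]

theorem twist_ne (a : ℤ) (φ : FreeGroup (twist a).gen →* Aut X) :
    fam φ (twist a).ne = sh ((twist a).loop φ) a (fam φ (twist a).nw) := by
  funext i
  exact twist_aux a φ i (top i)

theorem twist_se (a : ℤ) (φ : FreeGroup (twist a).gen →* Aut X) :
    fam φ (twist a).se = sh ((twist a).loop φ) a (fam φ (twist a).sw) := by
  funext i
  exact twist_aux a φ i (bot i)

theorem twist_std (a : ℤ) : Std (twist a) := by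
  have h1 : ∀ (X : Type) [LinearOrder X] (φ : FreeGroup (twist a).gen →* Aut X),
      (twist a).Sat φ → Cyc (fam φ (twist a).nw) := by
    intro X _ φ hφ
    apply Cyc.of_zero
    have := hφ (top 0 * top 1 * top 2) (Or.inl rfl)
    have h : ∀ φ : FreeGroup (Bool × ZMod 3) →* Aut X,
        φ (top 0 * top 1 * top 2) = φ (top 0) * φ (top 1) * φ (top 2) := fun φ => by
      rw [map_mul, map_mul]
    exact (h φ).symm.trans this
  have h2 : ∀ (X : Type) [LinearOrder X] (φ : FreeGroup (twist a).gen →* Aut X),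
      (twist a).Sat φ → Cyc (fam φ (twist a).sw) := by
    intro X _ φ hφ
    apply Cyc.of_zero
    have := hφ (bot 0 * bot 1 * bot 2) (Or.inr rfl)
    have h : ∀ φ : FreeGroup (Bool × ZMod 3) →* Aut X,
        φ (bot 0 * bot 1 * bot 2) = φ (bot 0) * φ (bot 1) * φ (bot 2) := fun φ => by
      rw [map_mul, map_mul]
    exact (h φ).symm.trans this
  refine ⟨h1, h2, ?_, ?_, ?_⟩
  · intro X _ φ hφ
    rw [twist_ne]
    exact sh_cyc _ (h1 X φ hφ)
  · intro X _ φ hφ
    rw [twist_se]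
    exact sh_cyc _ (h2 X φ hφ)
  · intro X _ φ hφ i
    have e1 := congrFun (twist_ne a φ) i
    have e2 := congrFun (twist_se a φ) i
    change φ ((twist a).ne i) = (φ ((twist a).nw i) * (φ ((twist a).sw i))⁻¹) ^ a *
      φ ((twist a).nw i) *
      (φ ((twist a).nw (i + 1)) * (φ ((twist a).sw (i + 1)))⁻¹) ^ (-a) at e1
    change φ ((twist a).se i) = (φ ((twist a).nw i) * (φ ((twist a).sw i))⁻¹) ^ a *
      φ ((twist a).sw i) *
      (φ ((twist a).nw (i + 1)) * (φ ((twist a).sw (i + 1)))⁻¹) ^ (-a) at e2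
    rw [e1, e2]
    generalize φ ((twist a).nw i) = x
    generalize φ ((twist a).sw i) = y
    generalize (φ ((twist a).nw (i + 1)) * (φ ((twist a).sw (i + 1)))⁻¹) ^ (-a) = z
    have : (x * y⁻¹) ^ a * x * z * ((x * y⁻¹) ^ a * y * z)⁻¹ =
      (x * y⁻¹) ^ a * (x * y⁻¹) * ((x * y⁻¹) ^ a)⁻¹ := by group
    rw [this, ← zpow_add_one, ← zpow_neg, ← zpow_add]
    have e3 : a + 1 + -a = 1 := by ring
    rw [e3, zpow_one]

theorem twist_sh (e : ℤ) (n z : ℤ) (φ : FreeGroup (twist (e * n)).gen →* Aut X) :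
    sh (pwr ((twist (e * n)).loop φ) e) z (fam φ (twist (e * n)).ne) =
      sh (pwr ((twist (e * n)).loop φ) e) (z + n) (fam φ (twist (e * n)).nw) := by
  rw [twist_ne, ← sh_pwr, sh_sh]

theorem twist_nn (e n z : ℤ) (h : 0 ≤ z + n) : NN e z (twist (e * n)) := by
  intro X _ φ _
  rw [twist_sh]
  obtain ⟨m, hm⟩ := Int.eq_ofNat_of_zero_le h
  rw [hm]
  exact twist_W m

theorem twist_pos (e n z : ℤ) (h : 1 ≤ z + n) : Pos e z (twist (e * n)) := by
  intro X _ φ _
  rw [twist_sh]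
  obtain ⟨m, hm⟩ := Int.eq_ofNat_of_zero_le (by omega : 0 ≤ z + n)
  rw [hm] at h ⊢
  exact twist_P m (by exact_mod_cast h)

theorem hom_one {g : Type} (φ : FreeGroup g →* Aut X) (h : ∀ x, φ (FreeGroup.of x) = 1)
    (w : FreeGroup g) : φ w = 1 := by
  have : φ = 1 := FreeGroup.ext_hom _ _ fun x => by rw [h x]; rfl
  rw [this]; rfl

theorem twist_rig (a : ℤ) : Rig (twist a) := by
  intro X _ φ _ h1 h2
  refine hom_one φ fun x => ?_
  obtain ⟨s, i⟩ := x
  cases s
  · exact h1 i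
  · exact h2 i

/-! ### Sums -/

section add

variable {S T : Tangle} {φ : FreeGroup (add S T).gen →* Aut X}

/-- restriction to the left summand -/
def resL (φ : FreeGroup (add S T).gen →* Aut X) : FreeGroup S.gen →* Aut X :=
  φ.comp (FreeGroup.map Sum.inl)
/-- restriction to the right summand -/
def resR (φ : FreeGroup (add S T).gen →* Aut X) : FreeGroup T.gen →* Aut X :=
  φ.comp (FreeGroup.map Sum.inr)

theorem satL (hφ : (add S T).Sat φ) : S.Sat (resL φ) := fun r hr =>
  hφ (FreeGroup.map Sum.inl r) (Or.inl (Or.inl (Or.inl ⟨r, hr, rfl⟩)))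
theorem satR (hφ : (add S T).Sat φ) : T.Sat (resR φ) := fun r hr =>
  hφ (FreeGroup.map Sum.inr r) (Or.inl (Or.inl (Or.inr ⟨r, hr, rfl⟩)))

theorem join1 (hφ : (add S T).Sat φ) (i : ZMod 3) : resL φ (S.ne i) = resR φ (T.nw i) := by
  have h := hφ _ (Or.inl (Or.inr ⟨i, rfl⟩))
  have k : ∀ (ψ : FreeGroup (S.gen ⊕ T.gen) →* Aut X) (x y : FreeGroup (S.gen ⊕ T.gen)),
      ψ (x * y⁻¹) = 1 → ψ x = ψ y := fun ψ x y e => by
    rw [map_mul, map_inv, mul_inv_eq_one] at e; exact e
  exact k φ _ _ h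
theorem join2 (hφ : (add S T).Sat φ) (i : ZMod 3) : resL φ (S.se i) = resR φ (T.sw i) := by
  have h := hφ _ (Or.inr ⟨i, rfl⟩)
  have k : ∀ (ψ : FreeGroup (S.gen ⊕ T.gen) →* Aut X) (x y : FreeGroup (S.gen ⊕ T.gen)),
      ψ (x * y⁻¹) = 1 → ψ x = ψ y := fun ψ x y e => by
    rw [map_mul, map_inv, mul_inv_eq_one] at e; exact e
  exact k φ _ _ h

theorem loop_eq (hs : Std S) (hφ : (add S T).Sat φ) : T.loop (resR φ) = S.loop (resL φ) := by
  funext i
  show resR φ (T.nw i) * (resR φ (T.sw i))⁻¹ = resL φ (S.nw i) * (resL φ (S.sw i))⁻¹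
  rw [hs.lp X (resL φ) (satL hφ) i, join1 hφ, join2 hφ]

theorem add_std (hs : Std S) (ht : Std T) : Std (add S T) := by
  refine ⟨fun X _ φ hφ => hs.cnw X _ (satL hφ), fun X _ φ hφ => hs.csw X _ (satL hφ),
    fun X _ φ hφ => ht.cne X _ (satR hφ), fun X _ φ hφ => ht.cse X _ (satR hφ), ?_⟩
  intro X _ φ hφ i
  have h1 := congrFun (loop_eq hs hφ) i
  have h2 := ht.lp X _ (satR hφ) i
  change resR φ (T.nw i) * (resR φ (T.sw i))⁻¹ = resL φ (S.nw i) * (resL φ (S.sw i))⁻¹ at h1
  show resL φ (S.nw i) * (resL φ (S.sw i))⁻¹ = resR φ (T.ne i) * (resR φ (T.se i))⁻¹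
  rw [← h1, h2]

theorem add_sh (hs : Std S) (hφ : (add S T).Sat φ) (e y z : ℤ) :
    sh (pwr ((add S T).loop φ) e) (y + z) (fam φ (add S T).ne) =
      sh (pwr (S.loop (resL φ)) e) y (sh (pwr (T.loop (resR φ)) e) z (fam (resR φ) T.ne)) := by
  rw [loop_eq hs hφ, sh_sh]
  rfl

theorem mid_sh (hs : Std S) (hφ : (add S T).Sat φ) (e y : ℤ) :
    sh (pwr (S.loop (resL φ)) e) y (fam (resL φ) S.ne) =
      sh (pwr (T.loop (resR φ)) e) y (fam (resR φ) T.nw) := by
  rw [loop_eq hs hφ]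
  congr 1
  funext i
  exact join1 hφ i

theorem add_nn (hs : Std S) {e y z : ℤ} (h1 : NN e y S) (h2 : NN e z T) :
    NN e (y + z) (add S T) := by
  intro X _ φ hφ
  rw [add_sh hs hφ]
  have g1 := h1 X (resL φ) (satL hφ)
  have g2 := (h2 X (resR φ) (satR hφ)).sh y
  rw [← mid_sh hs hφ, loop_eq hs hφ] at g2
  rw [loop_eq hs hφ]
  exact g1.trans g2

theorem add_pos (hs : Std S) {e y z : ℤ} (h1 : Pos e y S) (h2 : NN e z T) :
    Pos e (y + z) (add S T) := by
  intro X _ φ hφ
  rw [add_sh hs hφ]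
  have g1 := h1 X (resL φ) (satL hφ)
  have g2 := (h2 X (resR φ) (satR hφ)).sh y
  rw [← mid_sh hs hφ, loop_eq hs hφ] at g2
  rw [loop_eq hs hφ]
  exact g1.trans_weak g2

theorem add_pos' (hs : Std S) {e y z : ℤ} (h1 : NN e y S) (h2 : Pos e z T) :
    Pos e (y + z) (add S T) := by
  intro X _ φ hφ
  rw [add_sh hs hφ]
  have g1 := h1 X (resL φ) (satL hφ)
  have g2 := (h2 X (resR φ) (satR hφ)).sh y
  rw [← mid_sh hs hφ, loop_eq hs hφ] at g2
  rw [loop_eq hs hφ]
  exact g1.trans_pos g2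

theorem add_rig (hs : Rig S) (ht : Rig T) : Rig (add S T) := by
  intro X _ φ hφ h1 h2
  have k1 := hs X (resL φ) (satL hφ) h1 h2
  have k2 := ht X (resR φ) (satR hφ) (fun i => by rw [← join1 hφ, k1]) (fun i => by
    rw [← join2 hφ, k1])
  refine hom_one φ fun x => ?_
  rcases x with x | x
  · exact k1 (FreeGroup.of x)
  · exact k2 (FreeGroup.of x)

end add

/-! ### Inverses -/

section inv

variable {S : Tangle}

theorem inv_fam (φ : FreeGroup S.gen →* Aut X) (a : ZMod 3 → FreeGroup S.gen) :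
    fam φ (fun i => (a (-1 - i))⁻¹) = hat (fam φ a) := by
  funext i
  show φ (a (-1 - i))⁻¹ = (φ (a (-1 - i)))⁻¹
  rw [map_inv]

theorem inv_loop (φ : FreeGroup S.gen →* Aut X) :
    S.inv.loop φ = rk (fam φ S.nw) (fam φ S.ne) := by
  funext i
  show φ (S.nw (-1 - i))⁻¹ * (φ (S.ne (-1 - i))⁻¹)⁻¹ =
    (φ (S.nw (-1 - i)))⁻¹ * ((φ (S.ne (-1 - i)))⁻¹)⁻¹
  rw [map_inv, map_inv]

theorem inv_loop' (hs : Std S) (φ : FreeGroup S.gen →* Aut X) (hφ : S.Sat φ) :
    S.inv.loop φ = rk (fam φ S.sw) (fam φ S.se) := by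
  rw [inv_loop]
  funext i
  show (φ (S.nw (-1 - i)))⁻¹ * ((φ (S.ne (-1 - i)))⁻¹)⁻¹ =
    (φ (S.sw (-1 - i)))⁻¹ * ((φ (S.se (-1 - i)))⁻¹)⁻¹
  have h := hs.lp X φ hφ (-1 - i)
  generalize φ (S.nw (-1 - i)) = x at h ⊢
  generalize φ (S.sw (-1 - i)) = y at h ⊢
  generalize φ (S.ne (-1 - i)) = z at h ⊢
  generalize φ (S.se (-1 - i)) = w at h ⊢
  rw [inv_inv, inv_inv]
  have h1 : x = z * w⁻¹ * y := by rw [← h]; group
  rw [h1]
  group

theorem inv_std (hs : Std S) : Std S.inv := by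
  refine ⟨fun X _ φ hφ => ?_, fun X _ φ hφ => ?_, fun X _ φ hφ => ?_, fun X _ φ hφ => ?_,
    fun X _ φ hφ i => ?_⟩
  · exact (inv_fam φ S.nw) ▸ hat_cyc (hs.cnw X φ hφ)
  · exact (inv_fam φ S.ne) ▸ hat_cyc (hs.cne X φ hφ)
  · exact (inv_fam φ S.sw) ▸ hat_cyc (hs.csw X φ hφ)
  · exact (inv_fam φ S.se) ▸ hat_cyc (hs.cse X φ hφ)
  · have k : ∀ φ : FreeGroup S.gen →* Aut X, S.Sat φ →
        φ (S.inv.nw i) * (φ (S.inv.sw i))⁻¹ = φ (S.inv.ne i) * (φ (S.inv.se i))⁻¹ := by
      intro φ hφ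
      have h := congrFun (inv_loop' hs φ hφ) i
      change φ (S.inv.nw i) * (φ (S.inv.sw i))⁻¹ = (φ (S.sw (-1 - i)))⁻¹ *
        ((φ (S.se (-1 - i)))⁻¹)⁻¹ at h
      rw [h, ← map_inv, ← map_inv]
      rfl
    exact k φ hφ

theorem pwr_one (κ : ZMod 3 → Aut X) : pwr κ 1 = κ := by
  funext i; exact zpow_one _
theorem pwr_neg (κ : ZMod 3 → Aut X) : pwr κ (-1) = fun i => (κ i)⁻¹ := by
  funext i; exact zpow_neg_one _

theorem low_inv_low (κ a : ZMod 3 → Aut X) : low (fun i => (κ i)⁻¹) (low κ a) = a := by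
  funext i
  show ((κ i)⁻¹)⁻¹ * ((κ i)⁻¹ * a i) = a i
  group

theorem inv_pos (hs : Std S) {e : ℤ} (he : e = 1 ∨ e = -1) (h : Pos e 0 S) : Pos e 0 S.inv := by
  have main : ∀ (X : Type) [LinearOrder X] (φ : FreeGroup S.gen →* Aut X), S.Sat φ →
      P (pwr (S.inv.loop φ) e) (hat (fam φ S.nw)) (hat (fam φ S.sw)) := ?_
  · intro X _ φ hφ
    rw [sh_zero]
    have k2 : ∀ φ : FreeGroup S.gen →* Aut X, S.Sat φ →
        P (pwr (S.inv.loop φ) e) (fam φ S.inv.nw) (fam φ S.inv.ne) := fun φ hφ => by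
      have k := main X φ hφ
      rw [← inv_fam, ← inv_fam] at k
      exact k
    exact k2 φ hφ
  intro X _ φ hφ
  have h0 := h X φ hφ
  rw [sh_zero] at h0
  have cw : Cyc (low (S.loop φ) (fam φ S.nw)) := by rw [low_loop]; exact hs.csw X φ hφ
  rcases he with rfl | rfl
  · rw [pwr_one] at h0 ⊢
    have h1 := h0.turn (hs.cnw X φ hφ) (hs.cne X φ hφ) cw
    rw [inv_loop]
    rw [low_loop] at h1
    exact h1
  · rw [pwr_neg] at h0 ⊢
    -- the other string
    have h1 := h0.inv
    have h2 : P (S.loop φ) (fam φ S.ne) (fam φ S.nw) := by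
      have : (fun i => ((fun i => (S.loop φ i)⁻¹) i)⁻¹) = S.loop φ := by
        funext i; exact inv_inv _
      rw [this] at h1; exact h1
    have h3 := h2.low.inv
    rw [low_loop, low_loop' hs φ hφ] at h3
    have cw' : Cyc (low (fun i => (S.loop φ i)⁻¹) (fam φ S.sw)) := by
      rw [← low_loop, low_inv_low]; exact hs.cnw X φ hφ
    have h4 := h3.turn (hs.csw X φ hφ) (hs.cse X φ hφ) cw'
    rw [← inv_loop' hs φ hφ, ← low_loop, low_inv_low] at h4
    have h5 := h4.inv
    rw [low_loop] at h5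
    exact h5

theorem inv_absorb (hs : Std S) {e : ℤ} (he : e = 1 ∨ e = -1) (h : NN e (-1) S) :
    Pos (-e) 1 S.inv := by
  have main : ∀ (X : Type) [LinearOrder X] (φ : FreeGroup S.gen →* Aut X), S.Sat φ →
      P (pwr (S.inv.loop φ) (-e)) (hat (fam φ S.nw))
        (sh (pwr (S.inv.loop φ) (-e)) 1 (hat (fam φ S.sw))) := ?_
  · intro X _ φ hφ
    have k2 : ∀ φ : FreeGroup S.gen →* Aut X, S.Sat φ →
        P (pwr (S.inv.loop φ) (-e)) (fam φ S.inv.nw)
          (sh (pwr (S.inv.loop φ) (-e)) 1 (fam φ S.inv.ne)) := fun φ hφ => by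
      have k := main X φ hφ
      rw [← inv_fam, ← inv_fam] at k
      exact k
    exact k2 φ hφ
  intro X _ φ hφ
  have h0 := h X φ hφ
  have cw : Cyc (low (S.loop φ) (fam φ S.nw)) := by rw [low_loop]; exact hs.csw X φ hφ
  rcases he with rfl | rfl
  · -- flipped
    rw [pwr_one] at h0
    rw [pwr_neg]
    set κ := S.loop φ with hκ
    set d := sh κ (-1) (fam φ S.ne) with hd
    have hne : fam φ S.ne = sh κ 1 d := by rw [hd, sh_sh, add_neg_cancel, sh_zero]
    have h1 := h0.low.inv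
    rw [low_loop] at h1
    have cw' : Cyc (low (fun i => (κ i)⁻¹) (fam φ S.sw)) := by
      rw [← low_loop, low_inv_low]; exact hs.cnw X φ hφ
    have cd : Cyc (low κ d) := by
      have : low κ d = sh κ (-1) (fam φ S.se) := by
        rw [← low_loop' hs φ hφ, hd]
        funext i
        show (κ i)⁻¹ * (κ i ^ (-1 : ℤ) * φ (S.ne i) * κ (i + 1) ^ (-(-1 : ℤ))) =
          κ i ^ (-1 : ℤ) * ((κ i)⁻¹ * φ (S.ne i)) * κ (i + 1) ^ (-(-1 : ℤ))
        rw [zpow_neg_one]; group
      rw [this]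
      exact sh_cyc _ (hs.cse X φ hφ)
    have h2 := absorb h1 (hs.csw X φ hφ) cd cw'
    have e3 : sh (fun i => (κ i)⁻¹) (-1) (low κ d) = fam φ S.se := by
      rw [sh_inv, neg_neg, ← low_loop' hs φ hφ, hne]
      funext i
      show κ i ^ (1 : ℤ) * ((κ i)⁻¹ * d i) * κ (i + 1) ^ (-(1 : ℤ)) =
        (κ i)⁻¹ * (κ i ^ (1 : ℤ) * d i * κ (i + 1) ^ (-(1 : ℤ)))
      rw [zpow_one]; group
    rw [e3, ← inv_loop' hs φ hφ, ← low_loop, low_inv_low] at h2
    have h3 := h2.inv.sh 1
    have e4 : sh (fun i => (S.inv.loop φ i)⁻¹) 1 (sh (S.inv.loop φ) 1 (hat (fam φ S.nw))) =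
        hat (fam φ S.nw) := by
      rw [sh_inv, sh_sh, neg_add_cancel, sh_zero]
    rw [e4, low_loop] at h3
    exact h3
  · rw [pwr_neg, sh_inv, neg_neg] at h0
    have e5 : -(-1 : ℤ) = 1 := by norm_num
    rw [e5, pwr_one]
    set κ := S.loop φ with hκ
    set d := sh κ 1 (fam φ S.ne) with hd
    have hne : fam φ S.ne = sh κ (-1) d := by rw [hd, sh_sh, neg_add_cancel, sh_zero]
    have h1 := h0.inv
    have h2 : W κ d (fam φ S.nw) := by
      have : (fun i => ((fun i => (κ i)⁻¹) i)⁻¹) = κ := by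
        funext i; exact inv_inv _
      rw [this] at h1; exact h1
    have cd : Cyc d := sh_cyc _ (hs.cne X φ hφ)
    have h3 := absorb h2 (hs.cnw X φ hφ) cd cw
    rw [← hne, ← inv_loop, low_loop] at h3
    exact h3

theorem eq_one_of_fix {f : Aut X} (h : ∀ p, f p = p) : f = 1 := Aut.ext' h

/-- If the northern meridians are trivial then the southern meridians are. -/
theorem closing (hs : Std S) {e : ℤ} (he : e = 1 ∨ e = -1) (h : Pos e 0 S)
    (φ : FreeGroup S.gen →* Aut X) (hφ : S.Sat φ) (h1 : ∀ i, φ (S.nw i) = 1)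
    (h2 : ∀ i, φ (S.ne i) = 1) (i : ZMod 3) : φ (S.sw i) = 1 := by
  have h0 := h X φ hφ
  rw [sh_zero] at h0
  have e1 : fam φ S.ne = fam φ S.nw := by
    funext i
    show φ (S.ne i) = φ (S.nw i)
    rw [h1, h2]
  rw [e1] at h0
  have hc : Cyc (fam φ S.nw) := hs.cnw X φ hφ
  have cw : Cyc (fam φ S.sw) := hs.csw X φ hφ
  have h3 : P (S.loop φ) (fam φ S.nw) (fam φ S.nw) := by
    rcases he with rfl | rfl
    · rwa [pwr_one] at h0
    · rw [pwr_neg] at h0
      have h4 := h0.inv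
      have : (fun i => ((fun i => (S.loop φ i)⁻¹) i)⁻¹) = S.loop φ := by
        funext i; exact inv_inv _
      rwa [this] at h4
  have key2 : S.loop φ i = 1 :=
    eq_one_of_fix fun p => close h3 hc (by rw [low_loop]; exact cw) i p
  have : φ (S.nw i) * (φ (S.sw i))⁻¹ = 1 := key2
  rw [h1, one_mul, inv_eq_one] at this
  exact this

theorem inv_rig (hs : Std S) (hr : Rig S) {e : ℤ} (he : e = 1 ∨ e = -1) (h : Pos e 0 S) :
    Rig S.inv := by
  have main : ∀ (X : Type) [LinearOrder X] (φ : FreeGroup S.gen →* Aut X), S.Sat φ →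
      (∀ i, φ (S.nw (-1 - i))⁻¹ = 1) → (∀ i, φ (S.ne (-1 - i))⁻¹ = 1) → ∀ g, φ g = 1 := by
    intro X _ φ hφ h1 h2
    have g1 : ∀ i, φ (S.nw i) = 1 := fun i => by
      have := h1 (-1 - i)
      rwa [map_inv, inv_eq_one, sub_sub_cancel] at this
    have g2 : ∀ i, φ (S.ne i) = 1 := fun i => by
      have := h2 (-1 - i)
      rwa [map_inv, inv_eq_one, sub_sub_cancel] at this
    exact hr X φ hφ g1 (closing hs he h φ hφ g1 g2)
  exact fun X _ φ hφ h1 h2 => main X φ hφ h1 h2

end inv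

/-! ### The closure -/

theorem cover_trivial {S : Tangle} (hs : Std S) (hr : Rig S) {e : ℤ} (he : e = 1 ∨ e = -1)
    (h : Pos e 0 S) (ψ : S.Cover →* Aut X) (g : S.Cover) : ψ g = 1 := by
  let π : FreeGroup S.gen →* S.Cover := PresentedGroup.mk S.closeRel
  have hπ : ∀ r ∈ S.closeRel, π r = 1 := fun r hr => PresentedGroup.one_of_mem hr
  let φ : FreeGroup S.gen →* Aut X := ψ.comp π
  have hφ : ∀ r ∈ S.closeRel, φ r = 1 := fun r hr => by
    show ψ (π r) = 1
    rw [hπ r hr, map_one]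
  have hsat : S.Sat φ := fun r hr => hφ r (Or.inl (Or.inl (Or.inl hr)))
  have h1 : ∀ i, φ (S.nw i) = 1 := fun i => hφ _ (Or.inr ⟨i, rfl⟩)
  have h2 : ∀ i, φ (S.ne i) = 1 := fun i => by
    have := hφ (S.nw i * (S.ne i)⁻¹) (Or.inl (Or.inl (Or.inr ⟨i, rfl⟩)))
    rw [map_mul, map_inv, h1, one_mul, inv_eq_one] at this
    exact this
  have h3 := hr X φ hsat h1 (closing hs he h φ hsat h1 h2)
  obtain ⟨w, rfl⟩ : ∃ w, π w = g := PresentedGroup.mk_surjective _ g
  exact h3 w

/-- left multiplication -/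
def lmul {H : Type} [Group H] [LinearOrder H] (hinv : ∀ a b c : H, a ≤ b ↔ c * a ≤ c * b) :
    H →* Aut H where
  toFun c := (⟨Equiv.mulLeft c, fun {a b} => (hinv a b c).symm⟩ : H ≃o H)
  map_one' := by
    apply Aut.ext'
    intro x
    exact one_mul x
  map_mul' a b := by
    apply Aut.ext'
    intro x
    exact mul_assoc a b x

theorem hom_trivial' {Γ : Type*} [Group Γ]
    (h : ∀ (X : Type) [LinearOrder X] (ψ : Γ →* Aut X) (g : Γ), ψ g = 1)
    (H : Type) [Group H] (hH : LeftOrderable H) (f : Γ →* H) (γ : Γ) : f γ = 1 := by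
  classical
  obtain ⟨_, lt, hlt, hinv⟩ := hH
  let _ : LinearOrder H := linearOrderOfSTO lt
  have hinv' : ∀ a b c : H, a ≤ b ↔ c * a ≤ c * b := by
    intro a b c
    show (a = b ∨ lt a b) ↔ (c * a = c * b ∨ lt (c * a) (c * b))
    rw [mul_right_inj, ← hinv]
  have h1 := h H ((lmul hinv').comp f) γ
  have h2 : (lmul hinv') (f γ) (1 : H) = 1 := by
    have : (lmul hinv') (f γ) = 1 := h1
    rw [this]; rfl
  have h3 : f γ * 1 = 1 := h2
  rwa [mul_one] at h3

end Tangle

end Pool.Agent.Q184.TP
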